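import Pool.Agent.H.MP_102156_al.B
import Pool.Agent.H.MP_b2231e_al.Main

set_option autoImplicit false
set_option linter.style.haveILetI false

namespace Pool.Agent.H.MP_fb3574_al

open Subgroup Pool.Agent.H.MP_b2231e_al
open scoped commutatorElement IsMulCommutative

variable {G : Type} [Group G]

theorem hcm (a b : G) : ⁅a, b⁆ ∈ commutator G :=
  commutator_mem_commutator (mem_top _) (mem_top _)

theorem cq {N : Subgroup G} [N.Normal] {a b : G} :
    ⁅a, b⁆ ∈ N ↔ Commute (a : G ⧸ N) (b : G ⧸ N) := by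
  rw [← commutatorElement_eq_one_iff_commute, ← QuotientGroup.eq_one_iff]
  rfl

theorem Cn_cl {S : Set G} {g k : G} (hg : g ∈ Cn S) (hk : k ∈ closure S) : Commute g k := by
  have : closure S ≤ centralizer {g} := (closure_le _).2 fun s hs =>
    mem_centralizer_singleton_iff.2 (Cn_comm hg hs).symm
  exact (mem_centralizer_singleton_iff.1 (this hk)).symm

theorem schur (hFC : FC G) {S : Set G} (hS : S.Finite) {K : Subgroup G} (hK : K ≤ closure S) :
    Finite (commutator K) := by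
  haveI := Cn_fi hFC hS
  obtain ⟨R, h1, h2⟩ := reps (⊤ : Subgroup K) ((Cn S).subgroupOf K)
  haveI : Finite (commutatorSet K) := by
    refine Set.Finite.to_subtype (((R.finite_toSet.prod R.finite_toSet).image
      fun p => ⁅p.1, p.2⁆).subset ?_)
    rintro _ ⟨a, b, rfl⟩
    obtain ⟨x, hx, hxa⟩ := h2 a (mem_top _)
    obtain ⟨y, hy, hyb⟩ := h2 b (mem_top _)
    refine ⟨(x, y), ⟨hx, hy⟩, ?_⟩
    have a1 : ∀ k : K, k * (x⁻¹ * a) = x⁻¹ * a * k := fun k =>
      Subtype.ext (Cn_cl hxa (hK k.2)).symm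
    have a2 : ∀ k : K, k * (y⁻¹ * b) = y⁻¹ * b * k := fun k =>
      Subtype.ext (Cn_cl hyb (hK k.2)).symm
    obtain ⟨z, rfl⟩ : ∃ z, a = x * z := ⟨x⁻¹ * a, by group⟩
    obtain ⟨z', rfl⟩ : ∃ z, b = y * z := ⟨y⁻¹ * b, by group⟩
    simp only [inv_mul_cancel_left] at a1 a2
    simp only [commutatorElement_def]
    calc _ = x * (z * (y * z') * z⁻¹) * x⁻¹ * z'⁻¹ * y⁻¹ := by
          rw [← a1, mul_inv_cancel_right, ← mul_assoc, mul_assoc _ z', ← a2]; group
      _ = _ := by group
  infer_instance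

/-- supports -/
theorem supp (hFC : FC G) : ∃ (ι : Type) (N : ι → Subgroup G),
    (∀ i, (N i).Normal ∧ (N i).FiniteIndex) ∧ (∀ g, {i | g ∉ N i}.Finite) ∧
    ∀ a b : G, (∀ i, ∃ c : G, a ∈ N i ⊔ zpowers c ∧ b ∈ N i ⊔ zpowers c) →
      ⁅a, b⁆ ∈ center G := by
  let H := G ⧸ center G
  have hH : FC H := hFC.quot _
  have hRF : ∀ g : H, g ≠ 1 → ∃ N : Subgroup H, N.Normal ∧ N.FiniteIndex ∧ g ∉ N := by
    intro g hg
    induction g using QuotientGroup.induction_on with | H g =>
    have : ¬ ∀ x : G, x * g = g * x := fun h =>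
      hg ((QuotientGroup.eq_one_iff _).2 (mem_center_iff.2 h))
    push Not at this
    obtain ⟨x, hx⟩ := this
    haveI := Cn_fi hFC (Set.finite_singleton x)
    have hle : center G ≤ Cn {x} := fun z hz s _ h => (mem_center_iff.1 hz _).symm
    refine ⟨(Cn {x}).map (QuotientGroup.mk' _), Normal.map inferInstance _
      (QuotientGroup.mk'_surjective _), ⟨?_⟩, fun h => hx ?_⟩
    · rw [index_map_eq _ (QuotientGroup.mk'_surjective _) (by simpa using hle)]
      exact FiniteIndex.index_ne_zero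
    · obtain ⟨y, hy, e⟩ := h
      have h1 : y⁻¹ * g ∈ center G := QuotientGroup.eq.1 e
      have h2 : g ∈ Cn {x} := by simpa using mul_mem hy (hle h1)
      exact (Cn_comm h2 rfl).symm
  have hT : IsMulTorsion H := by
    intro g
    induction g using QuotientGroup.induction_on with | H g =>
    haveI := Cn_fi hFC (Set.finite_singleton g)
    obtain ⟨R, -, h2⟩ := reps (⊤ : Subgroup G) (Cn {g})
    haveI := Cn_fi hFC R.finite_toSet
    refine isOfFinOrder_iff_pow_eq_one.2 ⟨(Cn (R : Set G)).index,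
      Nat.pos_of_ne_zero FiniteIndex.index_ne_zero, ?_⟩
    rw [← QuotientGroup.mk_pow, QuotientGroup.eq_one_iff, mem_center_iff]
    intro y
    obtain ⟨x, hx, hxy⟩ := h2 y (mem_top _)
    have := (Cn_comm ((Cn (R : Set G)).pow_index_mem g) hx).mul_right
      ((Cn_comm hxy rfl).symm.pow_left _)
    rw [mul_inv_cancel_left] at this
    exact this.symm
  obtain ⟨𝒮, hS, hsep, hpf⟩ := Pool.Agent.H.MP_102156_al.thmA
    (Pool.Agent.H.MP_102156_al.ncl_finite hT hH) hRF
  haveI hSn : ∀ M : 𝒮, (M : Subgroup H).Normal := fun N => (hS N N.2).1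
  haveI hSf : ∀ M : 𝒮, (M : Subgroup H).FiniteIndex := fun N => (hS N N.2).2
  let q : ∀ M : 𝒮, G →* H ⧸ (M : Subgroup H) := fun M =>
    (QuotientGroup.mk' _).comp (QuotientGroup.mk' _)
  have hq : ∀ M, Function.Surjective (q M) := fun M =>
    (QuotientGroup.mk'_surjective _).comp (QuotientGroup.mk'_surjective _)
  refine ⟨𝒮, fun M => (center _).comap (q M), fun M => ⟨inferInstance, ⟨?_⟩⟩, fun g => ?_,
    fun a b h => ?_⟩
  · rw [index_comap_of_surjective _ (hq M)]
    exact FiniteIndex.index_ne_zero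
  · refine ((hH.comm (g : H)).biUnion (t := fun d => Subtype.val ⁻¹' {N | N ∈ 𝒮 ∧ d ∉ N})
      (by rintro _ ⟨x, rfl⟩; exact (hpf _ (hcm _ _)).preimage Subtype.val_injective.injOn)).subset ?_
    intro M hM
    by_contra hc
    refine hM (mem_center_iff.2 fun y => ?_)
    induction y using QuotientGroup.induction_on with | H y =>
    refine cq.1 ?_
    by_contra hn
    exact hc (Set.mem_biUnion ⟨y, rfl⟩ ⟨M.2, hn⟩)
  · rw [← QuotientGroup.eq_one_iff]
    refine hsep ⁅(a : H), (b : H)⁆ (hcm _ _) fun M hM => ?_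
    obtain ⟨c, ha, hb⟩ := h ⟨M, hM⟩
    haveI := (hS M hM).1
    refine cq.2 ?_
    obtain ⟨a1, ha1, _, ⟨m, rfl⟩, rfl⟩ := mem_sup_of_normal_left.1 ha
    obtain ⟨b1, hb1, _, ⟨n, rfl⟩, rfl⟩ := mem_sup_of_normal_left.1 hb
    change Commute (q ⟨M, hM⟩ _) (q ⟨M, hM⟩ _)
    simp only [map_mul, map_zpow]
    refine Commute.mul_left (mem_center_iff.1 ha1 _).symm (Commute.mul_right
      (mem_center_iff.1 hb1 _) ((Commute.refl _).zpow_zpow _ _))

theorem cz {a b z z' : G} (hz : z ∈ center G) (hz' : z' ∈ center G) :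
    ⁅a * z, b * z'⁆ = ⁅a, b⁆ := by
  have a1 := mem_center_iff.1 hz
  have a2 := mem_center_iff.1 hz'
  rw [commutatorElement_def, commutatorElement_def]
  calc _ = a * (z * (b * z') * z⁻¹) * a⁻¹ * z'⁻¹ * b⁻¹ := by group
    _ = _ := by rw [← a1, mul_inv_cancel_right, ← mul_assoc, mul_assoc _ z', ← a2]; group

theorem cen {K : Subgroup G} {e : G} (he : ∀ k ∈ K, ⁅e, k⁆ ∈ center G) {c : G}
    (hc : c ∈ ⁅K, K⁆) : Commute e c := by
  have : ⁅K, K⁆ ≤ (MulAut.conj e).toMonoidHom.eqLocus (MonoidHom.id G) := by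
    rw [commutator_le]
    intro a ha b hb
    show MulAut.conj e ⁅a, b⁆ = ⁅a, b⁆
    have e1 : ∀ k ∈ K, MulAut.conj e k = k * ⁅e, k⁆ := fun k hk => by
      rw [mem_center_iff.1 (he k hk), commutatorElement_def, MulAut.conj_apply]; group
    rw [map_commutatorElement, e1 a ha, e1 b hb, cz (he a ha) (he b hb)]
  have h2 : e * c * e⁻¹ = c := this hc
  exact mul_inv_eq_iff_eq_mul.1 h2

/-- homomorphisms agreeing modulo the centre on generators agree on the derived group -/
theorem iso1 {X : Type} {f g : FreeGroup X →* G}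
    (h : ∀ x, (f (.of x))⁻¹ * g (.of x) ∈ center G) {w : FreeGroup X} (hw : w ∈ commutator _) :
    f w = g w := by
  have h1 : (QuotientGroup.mk' (center G)).comp f = (QuotientGroup.mk' (center G)).comp g :=
    FreeGroup.ext_hom _ _ fun x => QuotientGroup.eq.2 (h x)
  have h2 : ∀ u, ∃ z ∈ center G, g u = f u * z := fun u =>
    ⟨_, QuotientGroup.eq.1 (DFunLike.congr_fun h1 u), by group⟩
  have : commutator (FreeGroup X) ≤ f.eqLocus g := by
    rw [commutator_def, commutator_le]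
    intro u _ v _
    obtain ⟨z, hz, e⟩ := h2 u
    obtain ⟨z', hz', e'⟩ := h2 v
    show f _ = g _
    rw [map_commutatorElement, map_commutatorElement, e, e', cz hz hz']
  exact this hw

abbrev g3 (F : Type) [Group F] : Subgroup F := ⁅commutator F, ⊤⁆

theorem iso2 {X : Type} {f g : FreeGroup X →* G}
    (h : ∀ x, ∀ k ∈ f.range ⊔ g.range, ⁅(f (.of x))⁻¹ * g (.of x), k⁆ ∈ center G)
    {w : FreeGroup X} (hw : w ∈ g3 _) : f w = g w := by
  set K := f.range ⊔ g.range
  have hf : ∀ u, f u ∈ K := fun u => mem_sup_left ⟨u, rfl⟩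
  have hg : ∀ u, g u ∈ K := fun u => mem_sup_right ⟨u, rfl⟩
  have hA : ∀ u, ∀ k ∈ K, ⁅(f u)⁻¹ * g u, k⁆ ∈ center G := by
    intro u
    simp only [cq] at h ⊢
    induction u using FreeGroup.induction_on with
    | C1 => simp
    | of x => exact h x
    | inv_of x ih =>
      intro k hk
      have h1 := ih _ (hf (.of x))
      have : ((((f (.of x)⁻¹)⁻¹ * g (.of x)⁻¹ : G)) : G ⧸ center G) =
          (((f (.of x))⁻¹ * g (.of x) : G) : G ⧸ center G)⁻¹ := by
        have h2 := h1.inv_left.eq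
        simp only [map_inv, inv_inv, QuotientGroup.mk_mul, QuotientGroup.mk_inv, mul_inv_rev,
          mul_assoc] at h2 ⊢
        rw [← mul_left_inj (f (.of x) : G ⧸ center G), mul_assoc, mul_assoc, h2]
      rw [this]
      exact (ih k hk).inv_left
    | mul u v ihu ihv =>
      intro k hk
      have : ((((f (u * v))⁻¹ * g (u * v) : G)) : G ⧸ center G) =
          (((f u)⁻¹ * g u : G) : G ⧸ center G) * (((f v)⁻¹ * g v : G) : G ⧸ center G) := by
        have h2 := (ihu _ (hf v)).inv_right.eq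
        simp only [map_mul, QuotientGroup.mk_mul, QuotientGroup.mk_inv, mul_inv_rev] at h2 ⊢
        rw [← mul_assoc _ (f v : G ⧸ center G)⁻¹, h2]
        group
      rw [this]
      exact (ihu k hk).mul_left (ihv k hk)
  have hB : commutator (FreeGroup X) ≤ ((QuotientGroup.mk' (center G)).comp f).eqLocus
      ((QuotientGroup.mk' (center G)).comp g) := by
    rw [commutator_def, commutator_le]
    intro u _ v _
    show ((f _ : G) : G ⧸ center G) = (g _ : G)
    have a1 := fun k hk => (cq.1 (hA u k hk)).eq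
    have a2 := fun k hk => (cq.1 (hA v k hk)).eq
    have b1 := a1 _ (hg v)
    have b2 := a2 _ (inv_mem (hf u))
    simp only [commutatorElement_def, map_mul, map_inv, QuotientGroup.mk_mul,
      QuotientGroup.mk_inv] at b1 b2 ⊢
    generalize (f u : G ⧸ center G) = a, (g u : G ⧸ center G) = a', (f v : G ⧸ center G) = b,
      (g v : G ⧸ center G) = b' at b1 b2 ⊢
    calc a * b * a⁻¹ * b⁻¹ = a * b * (a⁻¹ * (b⁻¹ * b')) * b'⁻¹ := by group
      _ = a * (b' * (a⁻¹ * a')) * a'⁻¹ * b'⁻¹ := by rw [← b2]; group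
      _ = _ := by rw [← b1]; group
  have : g3 (FreeGroup X) ≤ f.eqLocus g := by
    rw [commutator_le]
    intro u hu v _
    show f _ = g _
    have h1 : (f u)⁻¹ * g u ∈ center G := QuotientGroup.eq.1 (hB hu)
    have h2 : f u ∈ ⁅K, K⁆ := by
      have := mem_map_of_mem f hu
      rw [_root_.commutator_def, map_commutator] at this
      exact commutator_mono (by rintro _ ⟨y, -, rfl⟩; exact hf y)
        (by rintro _ ⟨y, -, rfl⟩; exact hf y) this
    have h3 := (cen (hA v) h2).inv_right.eq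
    have := cz (a := f u) (b := g v) h1 (one_mem _)
    rw [mul_inv_cancel_left, mul_one] at this
    rw [map_commutatorElement, map_commutatorElement, this, commutatorElement_def,
      commutatorElement_def]
    calc _ = f u * f v * ((f u)⁻¹ * ((f v)⁻¹ * g v)) * (g v)⁻¹ := by group
      _ = _ := by rw [← h3]; group
  exact this hw

theorem kill {F : Type} [Group F] (h : F → G) (h1 : ∀ u, h u ∈ center G)
    (h2 : ∀ u v, h (u * v) = h u * h v) {u : F} (hu : u ∈ commutator F) : h u = 1 := by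
  have : commutator F ≤ (MonoidHom.mk' h h2).ker := by
    rw [commutator_def, commutator_le]
    intro a _ b _
    rw [MonoidHom.mem_ker, map_commutatorElement, commutatorElement_eq_one_iff_mul_comm]
    exact mem_center_iff.1 (h1 b) _
  exact this hu

theorem cml {a b c : G} (h : ⁅b, c⁆ ∈ center G) : ⁅a * b, c⁆ = ⁅a, c⁆ * ⁅b, c⁆ := by
  rw [mem_center_iff.1 h]
  calc _ = a * ⁅b, c⁆ * a⁻¹ * ⁅a, c⁆ := by simp only [commutatorElement_def]; group
    _ = _ := by rw [mem_center_iff.1 h a]; group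

theorem cmr {a b c : G} (h : ⁅a, c⁆ ∈ center G) : ⁅a, b * c⁆ = ⁅a, b⁆ * ⁅a, c⁆ := by
  calc _ = ⁅a, b⁆ * (b * ⁅a, c⁆) * b⁻¹ := by simp only [commutatorElement_def]; group
    _ = _ := by rw [mem_center_iff.1 h b]; group

/-- Mayer-Vietoris formula on the third term of the lower central series -/
theorem mv {X : Type} {f f1 t f3 : FreeGroup X →* G} {P S : Subgroup G} [P.Normal] [S.Normal]
    (hPS : ∀ s ∈ S, ∀ p ∈ P, ⁅s, p⁆ ∈ center G)
    (h1 : ∀ x, f1 (.of x) * (t (.of x))⁻¹ ∈ P) (h3 : ∀ x, f3 (.of x) * (t (.of x))⁻¹ ∈ S)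
    (hf : ∀ x, f (.of x) = f1 (.of x) * (t (.of x))⁻¹ * f3 (.of x))
    (ht : ∀ x, (∀ p ∈ P, ⁅t (.of x), p⁆ ∈ center G) ∨ ∀ s ∈ S, ⁅s, t (.of x)⁆ ∈ center G)
    {w : FreeGroup X} (hw : w ∈ g3 _) : f w = f1 w * (t w)⁻¹ * f3 w := by
  let p : FreeGroup X → G := fun u => f1 u * (t u)⁻¹
  let s : FreeGroup X → G := fun u => f3 u * (t u)⁻¹
  have hp : ∀ u, p u ∈ P := fun u => by
    have h : (QuotientGroup.mk' P).comp f1 = (QuotientGroup.mk' P).comp t :=
      FreeGroup.ext_hom _ _ fun x => QuotientGroup.eq_iff_div_mem.2 (by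
        simpa [div_eq_mul_inv] using h1 x)
    simpa [div_eq_mul_inv] using QuotientGroup.eq_iff_div_mem.1 (DFunLike.congr_fun h u)
  have hs : ∀ u, s u ∈ S := fun u => by
    have h : (QuotientGroup.mk' S).comp f3 = (QuotientGroup.mk' S).comp t :=
      FreeGroup.ext_hom _ _ fun x => QuotientGroup.eq_iff_div_mem.2 (by
        simpa [div_eq_mul_inv] using h3 x)
    simpa [div_eq_mul_inv] using QuotientGroup.eq_iff_div_mem.1 (DFunLike.congr_fun h u)
  have hL : ∀ u, ∀ a ∈ S, ∀ b ∈ P, ⁅a, t u * b * (t u)⁻¹⁆ = ⁅a, b⁆ := by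
    have gen : ∀ g : G, ((∀ p ∈ P, ⁅g, p⁆ ∈ center G) ∨ ∀ s ∈ S, ⁅s, g⁆ ∈ center G) →
        ∀ a ∈ S, ∀ b ∈ P, ⁅a, g * b * g⁻¹⁆ = ⁅a, b⁆ := by
      rintro g (h | h) a ha b hb
      · have : g * b * g⁻¹ = b * ⁅g, b⁆ := by
          rw [mem_center_iff.1 (h b hb), commutatorElement_def]; group
        rw [this]
        simpa using cz (a := a) (b := b) (one_mem _) (h b hb)
      · have e : g⁻¹ * a * g = a * ⁅a⁻¹, g⁻¹⁆ := by rw [commutatorElement_def]; group
        have hz : ⁅a⁻¹, g⁻¹⁆ ∈ center G := cq.2 (cq.1 (h a ha)).inv_inv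
        calc _ = g * ⁅g⁻¹ * a * g, b⁆ * g⁻¹ := by simp only [commutatorElement_def]; group
          _ = g * ⁅a, b⁆ * g⁻¹ := by
            rw [e]; simpa using cz (a := a) (b := b) hz (one_mem _)
          _ = _ := by rw [mem_center_iff.1 (hPS a ha b hb)]; group
    intro u
    induction u using FreeGroup.induction_on with
    | C1 => simp
    | of x => exact gen _ (ht x)
    | inv_of x ih =>
      intro a ha b hb
      rw [← ih a ha _ (Normal.conj_mem inferInstance b hb _), map_inv]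
      congr 1
      group
    | mul u v ihu ihv =>
      intro a ha b hb
      rw [← ihv a ha b hb, ← ihu a ha _ (Normal.conj_mem inferInstance b hb (t v)), map_mul]
      congr 1
      group
  have hL' : ∀ u, ∀ a ∈ S, ∀ b ∈ P, ⁅t u * a * (t u)⁻¹, b⁆ = ⁅a, b⁆ := by
    intro u a ha b hb
    calc _ = t u * ⁅a, t u⁻¹ * b * (t u⁻¹)⁻¹⁆ * (t u)⁻¹ := by
          simp only [commutatorElement_def, map_inv]; group
      _ = _ := by rw [hL _ a ha b hb, mem_center_iff.1 (hPS a ha b hb)]; group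
  have pm : ∀ u v, p (u * v) = p u * (t u * p v * (t u)⁻¹) := fun u v => by
    simp only [p, map_mul]; group
  have sm : ∀ u v, s (u * v) = s u * (t u * s v * (t u)⁻¹) := fun u v => by
    simp only [s, map_mul]; group
  have c1 : ∀ u ∈ commutator (FreeGroup X), ∀ v, ⁅s u, p v⁆ = 1 := fun u hu v =>
    kill (fun u => ⁅s u, p v⁆) (fun u => hPS _ (hs u) _ (hp v)) (fun a b => by
      rw [sm, cml (hPS _ (Normal.conj_mem inferInstance _ (hs b) _) _ (hp v)),
        hL' _ _ (hs b) _ (hp v)]) hu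
  have c2 : ∀ u, ∀ v ∈ commutator (FreeGroup X), ⁅s u, p v⁆ = 1 := fun u v hv =>
    kill (fun v => ⁅s u, p v⁆) (fun v => hPS _ (hs u) _ (hp v)) (fun a b => by
      rw [pm, cmr (hPS _ (hs u) _ (Normal.conj_mem inferInstance _ (hp b) _)),
        hL _ _ (hs u) _ (hp b)]) hv
  let δ : FreeGroup X → G := fun u => p u * s u * t u * (f u)⁻¹
  have dm : ∀ u v, δ v ∈ center G → ⁅s u, p v⁆ * δ (u * v) = δ u * δ v := by
    intro u v hv
    have e1 := hL u _ (hs u) _ (hp v)
    have e2 := mem_center_iff.1 (hPS _ (hs u) _ (hp v)) (p u)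
    calc _ = ⁅s u, p v⁆ * p u * (t u * p v * (t u)⁻¹) * s u * t u * s v * t v * (f v)⁻¹ * (f u)⁻¹ := by
          simp only [δ, pm, sm, map_mul]; group
      _ = p u * s u * t u * δ v * (f u)⁻¹ := by
          rw [← e2, ← e1, commutatorElement_def]; simp only [δ]; group
      _ = _ := by rw [mul_assoc _ (δ v), ← mem_center_iff.1 hv]; simp only [δ]; group
  have d1 : δ 1 = 1 := by simp [δ, p, s]
  have dz : ∀ u, δ u ∈ center G := by
    intro u
    induction u using FreeGroup.induction_on with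
    | C1 => rw [d1]; exact one_mem _
    | of x =>
      have : δ (.of x) = 1 := by simp only [δ, p, s, hf]; group
      rw [this]; exact one_mem _
    | inv_of x ih =>
      have := dm (.of x)⁻¹ (.of x) ih
      rw [inv_mul_cancel, d1, mul_one] at this
      have h := mul_mem (hPS _ (hs (FreeGroup.of x)⁻¹) _ (hp (.of x))) (inv_mem ih)
      rwa [this, mul_inv_cancel_right] at h
    | mul u v ihu ihv =>
      have h := mul_mem (inv_mem (hPS _ (hs u) _ (hp v))) (mul_mem ihu ihv)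
      rwa [← dm u v ihv, inv_mul_cancel_left] at h
  let D : commutator (FreeGroup X) →* G := MonoidHom.mk' (fun u => δ u) fun u v => by
    rw [← dm _ _ (dz _), c1 _ u.2, one_mul]; rfl
  have : g3 (FreeGroup X) ≤ D.ker.map (commutator (FreeGroup X)).subtype := by
    rw [commutator_le]
    intro u hu v _
    refine ⟨⟨⁅u, v⁆, hcm _ _⟩, ?_, rfl⟩
    show δ ⁅u, v⁆ = 1
    have a1 := dm ⁅u, v⁆ (v * u) (dz _)
    have a2 := dm u v (dz _)
    have a3 := dm v u (dz _)
    rw [c1 _ (hcm _ _), one_mul, show ⁅u, v⁆ * (v * u) = u * v by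
      rw [commutatorElement_def]; group] at a1
    rw [c1 _ hu, one_mul] at a2
    rw [c2 _ _ hu, one_mul] at a3
    rw [a2, a3, ← mem_center_iff.1 (dz v)] at a1
    exact (mul_eq_right.1 a1.symm)
  obtain ⟨w', h, rfl⟩ := this hw
  have h' : δ w' = 1 := h
  simp only [δ, p, s] at h'
  rw [mul_inv_eq_one] at h'
  rw [coe_subtype, ← h']
  group

end Pool.Agent.H.MP_fb3574_al
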