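import Pool.Agent.H.MP_fb3574_al.A

set_option autoImplicit false
set_option linter.style.haveILetI false

namespace Pool.Agent.H.MP_fb3574_al

open Subgroup Pool.Agent.H.MP_b2231e_al

theorem chain_sub {ι : Type} {J : ℕ → Set ι} (hJ : Monotone J) {F : Set ι} (hF : F.Finite)
    (h : ∀ i ∈ F, ∃ n, i ∈ J n) : ∃ n, F ⊆ J n := by
  induction F, hF using Set.Finite.induction_on with
  | empty => exact ⟨0, Set.empty_subset _⟩
  | @insert a F _ _ ih =>
    obtain ⟨n, hn⟩ := ih fun i hi => h i (Set.mem_insert_of_mem _ hi)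
    obtain ⟨m, hm⟩ := h a (Set.mem_insert _ _)
    exact ⟨max n m, Set.insert_subset (hJ (le_max_right _ _) hm) (hn.trans (hJ (le_max_left _ _)))⟩

/-- a closed subgroup of a restricted product of finite groups has a locally finite
generating set -/
theorem gens {ι : Type} {Φ : ι → Type} [∀ i, Group (Φ i)] [∀ i, Finite (Φ i)]
    (Γ : Subgroup (∀ i, Φ i)) (hf : ∀ γ ∈ Γ, {i | γ i ≠ 1}.Finite)
    (hc : ∀ γ : ∀ i, Φ i, {i | γ i ≠ 1}.Finite →
      (∀ J : Set ι, J.Finite → ∃ γ' ∈ Γ, ∀ i ∈ J, γ' i = γ i) → γ ∈ Γ) :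
    ∃ X : Set (∀ i, Φ i), X ⊆ Γ ∧ Γ ≤ closure X ∧ ∀ i, {x ∈ X | x i ≠ 1}.Finite := by
  classical
  have hplus : ∀ J : Set ι, J.Finite → ∃ J' : Set ι, J'.Finite ∧ J ⊆ J' ∧
      ∀ γ ∈ Γ, ∃ γ' ∈ Γ, (∀ i ∈ J, γ' i = γ i) ∧ ∀ i ∉ J', γ' i = 1 := by
    intro J hJ
    haveI := hJ.to_subtype
    haveI : (⨅ i : J, (Pi.evalMonoidHom Φ i).ker).FiniteIndex :=
      finiteIndex_iInf fun i => inferInstance
    obtain ⟨R, h1, h2⟩ := reps Γ (⨅ i : J, (Pi.evalMonoidHom Φ i).ker)
    refine ⟨J ∪ ⋃ x ∈ R, {i | x i ≠ 1}, hJ.union (R.finite_toSet.biUnion fun x hx => hf x (h1 x hx)),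
      Set.subset_union_left, fun γ hγ => ?_⟩
    obtain ⟨x, hx, h⟩ := h2 γ hγ
    refine ⟨x, h1 x hx, fun i hi => inv_mul_eq_one.1 (mem_iInf.1 h ⟨i, hi⟩), fun i hi => ?_⟩
    by_contra hn
    exact hi (Or.inr (Set.mem_biUnion hx hn))
  choose! plus pf ps pp using hplus
  let res : Set ι → (∀ i, Φ i) → ∀ i, Φ i := fun S γ i => if i ∈ S then γ i else 1
  let 𝒮 : Set ι → Prop := fun S => ∀ γ ∈ Γ, res S γ ∈ Γ
  have hcompl : ∀ S, 𝒮 S → 𝒮 Sᶜ := fun S hS γ hγ => by
    convert mul_mem (inv_mem (hS γ hγ)) hγ using 1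
    funext i
    by_cases h : i ∈ S <;> simp [res, h]
  have hinter : ∀ S T, 𝒮 S → 𝒮 T → 𝒮 (S ∩ T) := fun S T hS hT γ hγ => by
    convert hS _ (hT γ hγ) using 1
    funext i
    by_cases h : i ∈ S <;> simp [res, h]
  let atom : ι → Set ι := fun i => {j | ∀ S, 𝒮 S → (i ∈ S ↔ j ∈ S)}
  have hself : ∀ i, i ∈ atom i := fun i S _ => Iff.rfl
  have heq : ∀ i j, j ∈ atom i → atom i = atom j := fun i j h =>
    Set.ext fun k => forall_congr' fun S => forall_congr' fun hS => by rw [h S hS]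
  have hcount : ∀ i, (atom i).Countable := by
    intro i
    let K : ℕ → Set ι := fun n => Nat.rec {i} (fun _ Y => plus Y) n
    have Kf : ∀ n, (K n).Finite := fun n => by
      induction n with
      | zero => exact Set.finite_singleton i
      | succ n ih => exact pf _ ih
    have Km : Monotone K := monotone_nat_of_le_succ fun n => ps _ (Kf n)
    have : 𝒮 (⋃ n, K n) := by
      intro γ hγ
      refine hc _ ((hf γ hγ).subset fun j hj h => hj (by simp [res, h])) fun J hJ => ?_
      obtain ⟨n, hn⟩ := chain_sub Km (hJ.inter_of_left (⋃ n, K n))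
        fun j hj => Set.mem_iUnion.1 hj.2
      obtain ⟨γ', h1, h2, h3⟩ := pp _ (Kf n) γ hγ
      refine ⟨γ', h1, fun j hj => ?_⟩
      by_cases h : j ∈ ⋃ n, K n
      · simp only [res, if_pos h]
        exact h2 j (hn ⟨hj, h⟩)
      · simp only [res, if_neg h]
        exact h3 j fun h' => h (Set.mem_iUnion.2 ⟨n + 1, h'⟩)
    exact (Set.countable_iUnion fun n => (Kf n).countable).mono
      fun j hj => (hj _ this).1 (Set.mem_iUnion.2 ⟨0, rfl⟩)
  have hatom : ∀ i, 𝒮 (atom i) := by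
    intro i γ hγ
    have : ∀ F : Set ι, F.Finite → ∃ S, 𝒮 S ∧ i ∈ S ∧ ∀ j ∈ F, j ∈ S → j ∈ atom i := by
      intro F hF
      induction F, hF using Set.Finite.induction_on with
      | empty => exact ⟨Set.univ, fun γ hγ => by simpa [res] using hγ, trivial, by simp⟩
      | @insert a F _ _ ih =>
        obtain ⟨S, h1, h2, h3⟩ := ih
        by_cases ha : a ∈ atom i
        · exact ⟨S, h1, h2, Set.forall_mem_insert.2 ⟨fun _ => ha, h3⟩⟩
        · have : ∃ T, 𝒮 T ∧ i ∈ T ∧ a ∉ T := by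
            simp only [atom, Set.mem_setOf_eq, not_forall] at ha
            obtain ⟨T, hT, h⟩ := ha
            by_cases hi : i ∈ T
            · exact ⟨T, hT, hi, by tauto⟩
            · exact ⟨Tᶜ, hcompl T hT, hi, by simp; tauto⟩
          obtain ⟨T, t1, t2, t3⟩ := this
          exact ⟨S ∩ T, hinter _ _ h1 t1, ⟨h2, t2⟩, Set.forall_mem_insert.2
            ⟨fun h => absurd h.2 t3, fun j hj h => h3 j hj h.1⟩⟩
    obtain ⟨S, h1, h2, h3⟩ := this _ (hf γ hγ)
    convert h1 γ hγ using 1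
    funext j
    by_cases hj : γ j = 1
    · simp [res, hj]
    · have : j ∈ atom i ↔ j ∈ S := ⟨fun h => (h S h1).1 h2, h3 j hj⟩
      simp [res, this]
  have : ∀ A : Set ι, A.Countable → ∃ e : ι → ℕ, Set.InjOn e A := fun A h =>
    Set.countable_iff_exists_injOn.1 h
  choose! enc henc using this
  obtain ⟨J, J0, Js⟩ : ∃ J : Set ι → ℕ → Set ι, (∀ A, J A 0 = ∅) ∧
      ∀ A n, J A (n + 1) = (plus (J A n) ∩ A) ∪ {j ∈ A | enc A j ≤ n} :=
    ⟨fun A n => Nat.rec ∅ (fun n Y => (plus Y ∩ A) ∪ {j ∈ A | enc A j ≤ n}) n,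
      fun _ => rfl, fun _ _ => rfl⟩
  have JA : ∀ A n, J A n ⊆ A := fun A n => by
    cases n with
    | zero => rw [J0]; exact Set.empty_subset _
    | succ n => rw [Js]; exact Set.union_subset Set.inter_subset_right fun j hj => hj.1
  have Jf : ∀ i n, (J (atom i) n).Finite := fun i n => by
    induction n with
    | zero => rw [J0]; exact Set.finite_empty
    | succ n ih =>
      rw [Js]
      exact ((pf _ ih).inter_of_left _).union (Set.Finite.of_finite_image
        ((Set.finite_Iic n).subset (by rintro _ ⟨j, hj, rfl⟩; exact hj.2))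
        ((henc _ (hcount i)).mono fun j hj => hj.1))
  have Jm : ∀ i, Monotone (J (atom i)) := fun i => monotone_nat_of_le_succ fun n j hj => by
    rw [Js]
    exact Or.inl ⟨ps _ (Jf i n) hj, JA _ _ hj⟩
  have Jc : ∀ A, ∀ j ∈ A, j ∈ J A (enc A j + 1) := fun A j hj => by
    rw [Js]
    exact Or.inr ⟨hj, le_rfl⟩
  let X : Set (∀ i, Φ i) :=
    {γ | γ ∈ Γ ∧ ∃ i n, ∀ j, γ j ≠ 1 → j ∈ J (atom i) (n + 2) ∧ j ∉ J (atom i) n}
  refine ⟨X, fun γ h => h.1, fun γ hγ => ?_, fun j => ?_⟩
  · have hP : ∀ i k n, ∀ γ ∈ Γ, (∀ j, γ j ≠ 1 → j ∈ J (atom i) (n + k + 2) ∧ j ∉ J (atom i) n) →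
        γ ∈ closure X := by
      intro i k
      induction k with
      | zero => exact fun n γ hγ h => subset_closure ⟨hγ, i, n, h⟩
      | succ k ih =>
        intro n γ hγ h
        obtain ⟨γ', h1, h2, h3⟩ := pp _ (Jf i (n + 1)) γ hγ
        have h4 : ∀ j, res (atom i) γ' j ≠ 1 → j ∈ J (atom i) (n + 2) := fun j hj => by
          by_cases ha : j ∈ atom i
          · simp only [res, if_pos ha] at hj
            rw [Js]
            exact Or.inl ⟨by by_contra hn; exact hj (h3 j hn), ha⟩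
          · simp [res, ha] at hj
        have h5 : ∀ j ∈ J (atom i) (n + 1), res (atom i) γ' j = γ j := fun j hj => by
          simp only [res, if_pos (JA _ _ hj)]
          exact h2 j hj
        have a1 : res (atom i) γ' ∈ closure X := subset_closure ⟨hatom i _ h1, i, n, fun j hj =>
          ⟨h4 j hj, fun hn => (h j (h5 j (Jm i n.le_succ hn) ▸ hj)).2 hn⟩⟩
        have a2 := ih (n + 1) _ (mul_mem (inv_mem (hatom i _ h1)) hγ) fun j hj => by
          refine ⟨?_, fun hn => hj (by simp [h5 j hn])⟩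
          by_cases h6 : γ j = 1
          · exact Jm i (by omega) (h4 j fun h7 => hj (by simp [h6, h7]))
          · exact Jm i (by omega) (h j h6).1
        simpa using mul_mem a1 a2
    have : ∀ F : Set ι, F.Finite → ∀ γ ∈ Γ, (∀ j, γ j ≠ 1 → j ∈ F) → γ ∈ closure X := by
      intro F hF
      induction F, hF using Set.Finite.induction_on with
      | empty =>
        intro γ _ h
        have : γ = 1 := funext fun j => by by_contra hn; exact h j hn
        rw [this]; exact one_mem _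
      | @insert i F _ _ ih =>
        intro γ hγ h
        have a1 : res (atom i)ᶜ γ ∈ closure X := ih _ (hcompl _ (hatom i) γ hγ) fun j hj => by
          by_cases ha : j ∈ (atom i)ᶜ
          · simp only [res, if_pos ha] at hj
            rcases h j hj with rfl | h'
            · exact absurd (hself j) ha
            · exact h'
          · simp only [res, if_neg ha] at hj
            exact absurd rfl hj
        obtain ⟨m, hm⟩ := chain_sub (Jm i) (hf _ (hatom i γ hγ)) fun j hj =>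
          ⟨_, Jc _ j (by by_contra hn; exact hj (by simp [res, hn]))⟩
        have a2 := hP i m 0 _ (hatom i γ hγ) fun j hj =>
          ⟨Jm i (by omega) (hm hj), fun h => by rw [J0] at h; exact h⟩
        convert mul_mem a2 a1 using 1
        funext j
        by_cases hj : j ∈ atom i <;> simp [res, hj]
    exact this _ (hf γ hγ) γ hγ fun j hj => hj
  · haveI := (Jf j (enc (atom j) j + 2)).to_subtype
    refine Set.Finite.of_finite_image
      (f := fun (γ : ∀ i, Φ i) (k : J (atom j) (enc (atom j) j + 2)) => γ k) (Set.toFinite _) ?_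
    have key : ∀ γ ∈ {x ∈ X | x j ≠ 1}, ∀ k ∉ J (atom j) (enc (atom j) j + 2), γ k = 1 := by
      rintro γ ⟨⟨-, i, n, h⟩, hj⟩ k hk
      have e := heq i j (JA _ _ (h j hj).1)
      rw [e] at h
      have : n ≤ enc (atom j) j := by
        by_contra hn
        exact (h j hj).2 (Jm j (by omega) (Jc _ j (hself j)))
      by_contra hn
      exact hk (Jm j (by omega) (h k hn).1)
    intro γ hγ γ' hγ' e
    funext k
    by_cases hk : k ∈ J (atom j) (enc (atom j) j + 2)
    · exact congrFun e ⟨k, hk⟩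
    · rw [key γ hγ k hk, key γ' hγ' k hk]

end Pool.Agent.H.MP_fb3574_al
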