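import Pool.Agent.H.MP_fb3574_al.B

set_option autoImplicit false
set_option linter.style.haveILetI false

namespace Pool.Agent.H.MP_fb3574_al

open Subgroup Pool.Agent.H.MP_b2231e_al
open scoped commutatorElement

variable {G : Type} [Group G]

theorem fdep {X : Type} (w : FreeGroup X) : ∃ Y : Set X, Y.Finite ∧
    ∀ (H : Type) [Group H] (f g : FreeGroup X →* H), (∀ y ∈ Y, f (.of y) = g (.of y)) →
      f w = g w := by
  induction w using FreeGroup.induction_on with
  | C1 => exact ⟨∅, Set.finite_empty, fun H _ f g _ => by simp⟩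
  | of x => exact ⟨{x}, Set.finite_singleton x, fun H _ f g h => h x rfl⟩
  | inv_of x _ => exact ⟨{x}, Set.finite_singleton x, fun H _ f g h => by simp [h x rfl]⟩
  | mul u v ihu ihv =>
    obtain ⟨Y, h1, h2⟩ := ihu
    obtain ⟨Y', h1', h2'⟩ := ihv
    exact ⟨Y ∪ Y', h1.union h1', fun H _ f g h => by
      rw [map_mul, map_mul, h2 H f g fun y hy => h y (Or.inl hy),
        h2' H f g fun y hy => h y (Or.inr hy)]⟩

theorem rle {X : Type} {f : FreeGroup X →* G} {M : Subgroup G} (h : ∀ x, f (.of x) ∈ M)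
    (w : FreeGroup X) : f w ∈ M := by
  induction w using FreeGroup.induction_on with
  | C1 => simp
  | of x => exact h x
  | inv_of x ih => simpa using ih
  | mul u v ihu ihv => rw [map_mul]; exact mul_mem ihu ihv

open Classical in
noncomputable def ph {X : Type} (a : X → G) (T : Set X) : FreeGroup X →* G :=
  FreeGroup.lift fun x => if x ∈ T then a x else 1

theorem ph_in {X : Type} {a : X → G} {T : Set X} {x : X} (h : x ∈ T) : ph a T (.of x) = a x := by
  simp [ph, h]

theorem ph_out {X : Type} {a : X → G} {T : Set X} {x : X} (h : x ∉ T) : ph a T (.of x) = 1 := by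
  simp [ph, h]

theorem ph_mem {X : Type} {a : X → G} {T : Set X} {M : Subgroup G} (h : ∀ x ∈ T, a x ∈ M)
    (w : FreeGroup X) : ph a T w ∈ M := rle (fun x => by
  by_cases hx : x ∈ T
  · rw [ph_in hx]; exact h x hx
  · rw [ph_out hx]; exact one_mem _) w

theorem atmost {X : Type} {a : X → G} {T : Set X} {M : Subgroup G}
    (h : ∀ x ∈ T, ∀ y ∈ T, x ≠ y → a x ∈ M ∨ a y ∈ M) :
    ∃ c : G, ∀ x ∈ T, a x ∈ M ⊔ zpowers c := by
  by_cases h1 : ∀ x ∈ T, a x ∈ M
  · exact ⟨1, fun x hx => mem_sup_left (h1 x hx)⟩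
  · push Not at h1
    obtain ⟨x, hx, h2⟩ := h1
    refine ⟨a x, fun y hy => ?_⟩
    by_cases e : x = y
    · rw [e]; exact mem_sup_right (mem_zpowers _)
    · exact mem_sup_left ((h x hx y hy e).resolve_left h2)

section
variable {ι : Type} {N : ι → Subgroup G}
  (hN : ∀ a b : G, (∀ i, ∃ c : G, a ∈ N i ⊔ zpowers c ∧ b ∈ N i ⊔ zpowers c) → ⁅a, b⁆ ∈ center G)
include hN

theorem disj {a b : G} (h : ∀ i, a ∈ N i ∨ b ∈ N i) : ⁅a, b⁆ ∈ center G :=
  hN a b fun i => (h i).elim
    (fun h => ⟨b, mem_sup_left h, mem_sup_right (mem_zpowers _)⟩)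
    (fun h => ⟨a, mem_sup_right (mem_zpowers _), mem_sup_left h⟩)

theorem uni {X : Type} {f g : FreeGroup X →* G}
    (h : ∀ i, (∀ x, (f (.of x))⁻¹ * g (.of x) ∈ N i) ∨
      ∃ c : G, (∀ x, f (.of x) ∈ N i ⊔ zpowers c) ∧ ∀ x, g (.of x) ∈ N i ⊔ zpowers c)
    {w : FreeGroup X} (hw : w ∈ g3 _) : f w = g w := by
  refine iso2 (fun x k hk => hN _ _ fun i => ?_) hw
  rcases h i with h | ⟨c, h1, h2⟩
  · exact ⟨k, mem_sup_left (h x), mem_sup_right (mem_zpowers _)⟩
  · refine ⟨c, mul_mem (inv_mem (h1 x)) (h2 x), ?_⟩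
    exact (sup_le (by rintro _ ⟨u, rfl⟩; exact rle h1 u) (by rintro _ ⟨u, rfl⟩; exact rle h2 u) :
      f.range ⊔ g.range ≤ _) hk

theorem peel [∀ i, (N i).Normal] {X : Type} (near : X → X → Prop)
    (hsym : ∀ x y, near x y → near y x) (hr : ∀ x y, near x y → near y y)
    (a : X → G) (X0 : Set X)
    (ha : ∀ x ∈ X0, ∀ y ∈ X0, x ≠ y → ¬ near x y → ∀ i, a x ∈ N i ∨ a y ∈ N i)
    {w : FreeGroup X} (hw : w ∈ g3 _)
    (h : ∀ x0, ∀ U ⊆ X0, U ⊆ insert x0 {x | ∃ y, near x y ∧ near y x0} → ph a U w = 1) :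
    ∀ n, ∀ T : Set X, T.Finite → T.ncard = n → T ⊆ X0 → ph a T w = 1 := by
  intro n
  induction n with
  | zero =>
    intro T hT h0 _
    rw [(Set.ncard_eq_zero hT).1 h0]
    exact mem_bot.1 (ph_mem (by simp) w)
  | succ n ih =>
    intro T hT hn hX
    obtain ⟨x0, T', hx0, rfl, hn'⟩ := Set.eq_insert_of_ncard_eq_succ hn
    let B : Set X := {x | ∃ y, near x y ∧ near y x0}
    have hX' : T' ⊆ X0 := (Set.subset_insert _ _).trans hX
    have hx0' : x0 ∈ X0 := hX (Set.mem_insert _ _)
    let P : Subgroup G := ⨅ i : {i // ∀ x ∈ T' \ B, a x ∈ N i}, N i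
    let S : Subgroup G := ⨅ i : {i // a x0 ∈ N i}, N i
    haveI : P.Normal := normal_iInf_normal fun i => inferInstance
    haveI : S.Normal := normal_iInf_normal fun i => inferInstance
    have far : ∀ x ∈ T', ¬ near x x0 → ∀ i, a x ∈ N i ∨ a x0 ∈ N i := fun x hx =>
      ha x (hX' hx) x0 hx0' (by rintro rfl; exact hx0 hx)
    have := mv (f := ph a (insert x0 T')) (f1 := ph a T') (t := ph a (T' ∩ B))
      (f3 := ph a (insert x0 (T' ∩ B))) (P := P) (S := S) ?_ ?_ ?_ ?_ ?_ hw
    · rw [this, ih T' (hT.subset (Set.subset_insert _ _)) hn' hX',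
        h x0 _ (Set.inter_subset_left.trans hX')
          (Set.inter_subset_right.trans (Set.subset_insert _ _)),
        h x0 _ (Set.insert_subset hx0' (Set.inter_subset_left.trans hX'))
          (Set.insert_subset_insert Set.inter_subset_right)]
      simp
    · intro s hs p hp
      refine disj hN fun i => ?_
      by_cases h1 : a x0 ∈ N i
      · exact Or.inl (mem_iInf.1 hs ⟨i, h1⟩)
      · refine Or.inr (mem_iInf.1 hp ⟨i, fun x hx => (far x hx.1 (fun h2 => ?_) i).resolve_right h1⟩)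
        exact hx.2 ⟨x0, h2, hr _ _ h2⟩
    · intro x
      by_cases h1 : x ∈ T'
      · by_cases h2 : x ∈ B
        · rw [ph_in h1, ph_in (T := T' ∩ B) ⟨h1, h2⟩, mul_inv_cancel]; exact one_mem _
        · rw [ph_in h1, ph_out (T := T' ∩ B) fun h => h2 h.2, inv_one, mul_one]
          exact mem_iInf.2 fun i => i.2 x ⟨h1, h2⟩
      · rw [ph_out h1, ph_out (T := T' ∩ B) fun h => h1 h.1]; simp
    · intro x
      by_cases h1 : x ∈ T' ∩ B
      · rw [ph_in h1, ph_in (Set.mem_insert_of_mem _ h1), mul_inv_cancel]; exact one_mem _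
      · rw [ph_out h1, inv_one, mul_one]
        by_cases h2 : x = x0
        · rw [h2, ph_in (Set.mem_insert _ _)]
          exact mem_iInf.2 fun i => i.2
        · rw [ph_out (by simp only [Set.mem_insert_iff]; tauto)]; exact one_mem _
    · intro x
      by_cases h0 : x = x0
      · rw [h0, ph_in (Set.mem_insert _ _), ph_in (Set.mem_insert _ _), ph_out hx0,
          ph_out (T := T' ∩ B) fun h => hx0 h.1]
        simp
      · by_cases h1 : x ∈ T'
        · rw [ph_in (Set.mem_insert_of_mem _ h1), ph_in h1]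
          by_cases h2 : x ∈ B
          · rw [ph_in (T := T' ∩ B) ⟨h1, h2⟩, ph_in (T := insert x0 (T' ∩ B)) (Or.inr ⟨h1, h2⟩)]
            simp
          · rw [ph_out (T := T' ∩ B) fun h => h2 h.2,
              ph_out (by simp only [Set.mem_insert_iff, Set.mem_inter_iff]; tauto)]
            simp
        · rw [ph_out (by simp only [Set.mem_insert_iff]; tauto), ph_out h1,
            ph_out (T := T' ∩ B) fun h => h1 h.1,
            ph_out (by simp only [Set.mem_insert_iff, Set.mem_inter_iff]; tauto)]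
          simp
    · intro x
      by_cases h1 : x ∈ T' ∩ B
      · rw [ph_in h1]
        by_cases h2 : near x x0
        · refine Or.inl fun p hp => disj hN fun i => ?_
          by_cases h3 : a x ∈ N i
          · exact Or.inl h3
          · refine Or.inr (mem_iInf.1 hp ⟨i, fun y hy => (ha y (hX' hy.1) x (hX' h1.1) ?_
              (fun h4 => hy.2 ⟨x, h4, h2⟩) i).resolve_right h3⟩)
            rintro rfl
            exact hy.2 h1.2
        · refine Or.inr fun s hs => disj hN fun i => ?_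
          exact (far x h1.1 h2 i).symm.imp_left fun h => mem_iInf.1 hs ⟨i, h⟩
      · rw [ph_out h1]
        exact Or.inl fun p _ => by simp

end

theorem step1 (hFC : FC G) : ∃ (κ : Type) (ρ : κ → FreeGroup G →* G),
    (∀ k, ∃ S : Set G, S.Finite ∧ (ρ k).range ≤ closure S) ∧ (∀ w, {k | ρ k w ≠ 1}.Finite) ∧
    ∀ w ∈ g3 (FreeGroup G), (∀ k, ρ k w = 1) → FreeGroup.lift id w = 1 := by
  classical
  obtain ⟨ι, N, hN1, hN2, hN⟩ := supp hFC
  haveI := fun i => (hN1 i).1
  haveI := fun i => (hN1 i).2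
  let Γ : Subgroup (∀ i, G ⧸ N i) :=
    { carrier := {γ | {i | γ i ≠ 1}.Finite ∧
        ∀ J : Set ι, J.Finite → ∃ g : G, ∀ i ∈ J, (g : G ⧸ N i) = γ i}
      one_mem' := ⟨by simp, fun J _ => ⟨1, fun i _ => rfl⟩⟩
      mul_mem' := by
        rintro a b ⟨a1, a2⟩ ⟨b1, b2⟩
        refine ⟨(a1.union b1).subset fun i hi => ?_, fun J hJ => ?_⟩
        · by_contra hn
          simp only [Set.mem_union, Set.mem_ofPred_eq, not_or, not_not] at hn
          exact hi (by simp [hn.1, hn.2])
        · obtain ⟨g, hg⟩ := a2 J hJ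
          obtain ⟨g', hg'⟩ := b2 J hJ
          exact ⟨g * g', fun i hi => by simp [hg i hi, hg' i hi]⟩
      inv_mem' := by
        rintro a ⟨a1, a2⟩
        refine ⟨by simpa using a1, fun J hJ => ?_⟩
        obtain ⟨g, hg⟩ := a2 J hJ
        exact ⟨g⁻¹, fun i hi => by simp [hg i hi]⟩ }
  obtain ⟨X, hX1, hX2, hX3⟩ := gens Γ (fun γ h => h.1) (fun γ h1 h2 => ⟨h1, fun J hJ => by
    obtain ⟨γ', h3, h4⟩ := h2 J hJ
    obtain ⟨g, hg⟩ := h3.2 J hJ
    exact ⟨g, fun i hi => (hg i hi).trans (h4 i hi)⟩⟩)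
  have approx : ∀ J : Set ι, J.Finite → ∀ T : Set X, T.Finite → (∀ x ∈ T, ∀ i ∉ J, x.1 i = 1) →
      ∃ a : X → G, (∀ x ∈ T, ∀ i ∈ J, (a x : G ⧸ N i) = x.1 i) ∧
        ∀ i ∉ J, ∀ x ∈ T, ∀ y ∈ T, x ≠ y → a x ∈ N i ∨ a y ∈ N i := by
    intro J hJ T hT
    induction T, hT using Set.Finite.induction_on with
    | empty => exact fun _ => ⟨fun _ => 1, by simp, by simp⟩
    | @insert z T hz hT ih =>
      intro h
      obtain ⟨a, h1, h2⟩ := ih fun x hx => h x (Set.mem_insert_of_mem _ hx)
      obtain ⟨g, hg⟩ := (hX1 z.2).2 _ (hJ.union (hT.biUnion fun x _ => hN2 (a x)))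
      have hne : ∀ x ∈ T, x ≠ z := fun x hx e => hz (e ▸ hx)
      have key : ∀ i ∉ J, ∀ y ∈ T, g ∈ N i ∨ a y ∈ N i := fun i hi y hy => by
        by_cases h3 : a y ∈ N i
        · exact Or.inr h3
        · refine Or.inl ((QuotientGroup.eq_one_iff _).1 ?_)
          rw [hg i (Or.inr (Set.mem_biUnion hy h3)), h z (Set.mem_insert _ _) i hi]
      refine ⟨Function.update a z g, ?_, ?_⟩
      · rintro x (rfl | hx) i hi
        · rw [Function.update_self]; exact hg i (Or.inl hi)
        · rw [Function.update_of_ne (hne x hx)]; exact h1 x hx i hi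
      · rintro i hi x (rfl | hx) y (rfl | hy) hxy
        · exact absurd rfl hxy
        · rw [Function.update_self, Function.update_of_ne (hne y hy)]; exact key i hi y hy
        · rw [Function.update_self, Function.update_of_ne (hne x hx)]; exact (key i hi x hx).symm
        · rw [Function.update_of_ne (hne x hx), Function.update_of_ne (hne y hy)]
          exact h2 i hi x hx y hy hxy
  let σ : Set X → Set ι := fun T => ⋃ x ∈ T, {i | x.1 i ≠ 1}
  have σf : ∀ T : Set X, T.Finite → (σ T).Finite := fun T hT => hT.biUnion fun x _ => (hX1 x.2).1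
  have σs : ∀ T : Set X, ∀ x ∈ T, ∀ i ∉ σ T, x.1 i = 1 := fun T x hx i hi => by
    by_contra hn
    exact hi (Set.mem_biUnion hx hn)
  choose! A hA1 hA2 using fun (T : Set X) (hT : T.Finite) => approx _ (σf T hT) T hT (σs T)
  let near : X → X → Prop := fun x y => ∃ i, x.1 i ≠ 1 ∧ y.1 i ≠ 1
  have hsym : ∀ x y, near x y → near y x := fun x y ⟨i, h1, h2⟩ => ⟨i, h2, h1⟩
  have nf : ∀ y, {x | near x y}.Finite := fun y =>
    ((hX1 y.2).1.biUnion fun i _ => (hX3 i).preimage Subtype.val_injective.injOn).subset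
      fun x ⟨i, h1, h2⟩ => Set.mem_biUnion h2 ⟨x.2, h1⟩
  let ball : X → Set X := fun x0 => insert x0 {x | ∃ y, near x y ∧ near y x0}
  have bf : ∀ x, (ball x).Finite := fun x => Set.Finite.insert x
    (((nf x).biUnion fun y _ => nf y).subset fun z ⟨y, h1, h2⟩ => Set.mem_biUnion h2 h1)
  have bs : ∀ x y, x ∈ ball y → y ∈ ball x := by
    rintro x y (rfl | ⟨z, h1, h2⟩)
    · exact Set.mem_insert _ _
    · exact Or.inr ⟨z, hsym _ _ h2, hsym _ _ h1⟩
  let ev : FreeGroup X →* ∀ i, G ⧸ N i := FreeGroup.lift Subtype.val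
  have : ∀ g : G, ∃ u, ev u = fun i => (g : G ⧸ N i) := fun g => by
    have h1 : (fun i => (g : G ⧸ N i)) ∈ Γ :=
      ⟨(hN2 g).subset fun i hi h => hi ((QuotientGroup.eq_one_iff _).2 h),
        fun J _ => ⟨g, fun _ _ => rfl⟩⟩
    have h2 := hX2 h1
    rw [← Subtype.range_coe (s := X), ← FreeGroup.range_lift_eq_closure] at h2
    exact h2
  choose ω hω using this
  let lam : FreeGroup G →* FreeGroup X := FreeGroup.lift ω
  let κ := {U : Set X // ∃ x0, U ⊆ ball x0}
  have κf : ∀ U : κ, U.1.Finite := fun U => U.2.elim fun x h => (bf x).subset h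
  refine ⟨κ, fun U => (ph (A U) U).comp lam, fun U => ⟨A U '' U, (κf U).image _, ?_⟩,
    fun w => ?_, fun w hw h => ?_⟩
  · rintro _ ⟨u, rfl⟩
    exact ph_mem (fun x hx => Subgroup.subset_closure (Set.mem_image_of_mem _ hx)) _
  · obtain ⟨Y, hY, hd⟩ := fdep (lam w)
    refine (((hY.biUnion fun y _ => (bf y).biUnion fun x _ => (bf x).finite_subsets)).preimage
      Subtype.val_injective.injOn).subset fun U hU => ?_
    by_contra hn
    refine hU (hd G _ 1 fun y hy => ph_out fun h => hn ?_)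
    obtain ⟨x0, h0⟩ := U.2
    exact Set.mem_biUnion hy (Set.mem_biUnion (bs _ _ (h0 h)) h0)
  · obtain ⟨Y, hY, hd⟩ := fdep w
    choose L hL hLd using fun g => fdep (ω g)
    let X0 : Set X := ⋃ g ∈ Y, L g
    have X0f : X0.Finite := hY.biUnion fun g _ => hL g
    let J : Set ι := σ X0 ∪ (⋃ g ∈ Y, {i | g ∉ N i}) ∪
      ⋃ U ∈ {U | U ⊆ X0}, ⋃ x ∈ U, {i | A U x ∉ N i}
    have Jf : J.Finite := ((σf _ X0f).union (hY.biUnion fun g _ => hN2 g)).union
      (X0f.finite_subsets.biUnion fun U hU => (X0f.subset hU).biUnion fun x _ => hN2 _)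
    obtain ⟨a, a1, a2⟩ := approx J Jf X0 X0f fun x hx i hi =>
      σs _ x hx i fun h => hi (Or.inl (Or.inl h))
    have hw' : lam w ∈ g3 (FreeGroup X) := by
      have := mem_map_of_mem lam hw
      rw [map_commutator, _root_.commutator_def, map_commutator] at this
      exact commutator_mono (commutator_mono le_top le_top) le_top this
    have e1 : ph a X0 (lam w) = 1 := by
      refine peel hN near hsym (fun x y ⟨i, _, h⟩ => ⟨i, h, h⟩) a X0 (fun x hx y hy hxy hn i => ?_)
        hw' (fun x0 U hU hb => ?_) _ X0 X0f rfl le_rfl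
      · by_cases hi : i ∈ J
        · rw [← QuotientGroup.eq_one_iff, ← QuotientGroup.eq_one_iff, a1 x hx i hi, a1 y hy i hi]
          by_contra hc
          push Not at hc
          exact hn ⟨i, hc⟩
        · exact a2 i hi x hx y hy hxy
      · rw [← h ⟨U, x0, hb⟩]
        change _ = ph (A U) U (lam w)
        refine uni hN (fun i => ?_) hw'
        have Uf := X0f.subset hU
        by_cases h1 : i ∈ σ U
        · refine Or.inl fun x => ?_
          by_cases hx : x ∈ U
          · rw [ph_in hx, ph_in hx, ← QuotientGroup.eq, hA1 U Uf x hx i h1, a1 x (hU hx) i]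
            exact Or.inl (Or.inl (Set.biUnion_subset_biUnion_left hU h1))
          · rw [ph_out hx, ph_out hx]; simp
        · right
          by_cases h2 : i ∈ J
          · obtain ⟨c, hc⟩ := atmost (hA2 U Uf i h1)
            refine ⟨c, fun x => ph_mem (fun y hy => mem_sup_left ?_) _, fun x => ph_mem hc _⟩
            rw [← QuotientGroup.eq_one_iff, a1 y (hU hy) i h2, σs U y hy i h1]
          · obtain ⟨c, hc⟩ := atmost (a2 i h2)
            refine ⟨c, fun x => ph_mem (fun y hy => hc y (hU hy)) _,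
              fun x => ph_mem (fun y hy => mem_sup_left ?_) _⟩
            by_contra hn
            exact h2 (Or.inr (Set.mem_biUnion hU (Set.mem_biUnion hy hn)))
    rw [hd G _ (ph id Y) fun y hy => by simp [ph_in hy], ← e1]
    change _ = ((ph a X0).comp lam) w
    rw [hd G ((ph a X0).comp lam) (ph (fun g => ph a X0 (ω g)) Y) fun y hy => by
      simp [ph_in hy, lam]]
    refine uni hN (fun i => ?_) hw
    by_cases h2 : i ∈ J
    · refine Or.inl fun g => ?_
      by_cases hg : g ∈ Y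
      · rw [ph_in hg, ph_in hg, ← QuotientGroup.eq]
        have := hLd g _ ((Pi.evalMonoidHom _ i).comp ev) ((QuotientGroup.mk' (N i)).comp (ph a X0))
          fun x hx => by
            have hx' : x ∈ X0 := Set.mem_biUnion hg hx
            simp [ev, ph_in hx', a1 x hx' i h2]
        simpa [hω] using this
      · rw [ph_out hg, ph_out hg]; simp
    · obtain ⟨c, hc⟩ := atmost (a2 i h2)
      refine Or.inr ⟨c, fun x => ph_mem (fun y hy => mem_sup_left ?_) _,
        fun x => ph_mem (fun y _ => ph_mem hc _) _⟩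
      by_contra hn
      exact h2 (Or.inl (Or.inr (Set.mem_biUnion hy hn)))

end Pool.Agent.H.MP_fb3574_al
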