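import Pool.Agent.H.MP_fb3574_al.C

set_option autoImplicit false
set_option linter.style.haveILetI false

namespace Pool.Agent.H.MP_fb3574_al

open Subgroup Pool.Agent.H.MP_b2231e_al
open scoped commutatorElement IsMulCommutative

noncomputable abbrev Cp (p : ℕ) : Subgroup ℂˣ := ⨆ n : ℕ, rootsOfUnity (p ^ n) ℂ

theorem memC {p : ℕ} {x : ℂˣ} : x ∈ Cp p ↔ ∃ n, x ^ p ^ n = 1 := by
  rw [mem_iSup_of_directed]
  · rfl
  · exact Monotone.directed_le fun m n h => rootsOfUnity_le_of_dvd (pow_dvd_pow p h)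

theorem powC {p : ℕ} (x : Cp p) : ∃ n, x ^ p ^ n = 1 :=
  (memC.1 x.2).imp fun _ h => Subtype.ext h

theorem copC {p : ℕ} (hp : p.Prime) {m : ℕ} (hm : ¬ p ∣ m) {x : Cp p} (h : x ^ m = 1) : x = 1 := by
  obtain ⟨n, hn⟩ := powC x
  rw [← orderOf_eq_one_iff]
  exact Nat.eq_one_of_dvd_coprimes (((Nat.Prime.coprime_iff_not_dvd hp).2 hm).pow_left n)
    (orderOf_dvd_of_pow_eq_one hn) (orderOf_dvd_of_pow_eq_one h)

theorem divC {p : ℕ} (hp : p.Prime) (n : ℕ) (hn : n ≠ 0) (x : Cp p) : ∃ y : Cp p, y ^ n = x := by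
  induction n using induction_on_primes generalizing x with
  | zero => exact absurd rfl hn
  | one => exact ⟨x, pow_one x⟩
  | prime_mul q a hq ih =>
    have : ∃ y : Cp p, y ^ q = x := by
      obtain ⟨k, hk⟩ := powC x
      by_cases h : q = p
      · subst h
        obtain ⟨z, hz⟩ := IsAlgClosed.exists_pow_nat_eq ((x : ℂˣ) : ℂ) hq.pos
        have hz0 : z ≠ 0 := by
          rintro rfl
          exact (x : ℂˣ).ne_zero (by rw [← hz, zero_pow hq.ne_zero])
        have e : Units.mk0 z hz0 ^ q = x := Units.ext (by simpa using hz)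
        refine ⟨⟨Units.mk0 z hz0, memC.2 ⟨k + 1, ?_⟩⟩, Subtype.ext e⟩
        rw [pow_succ', pow_mul, e]
        exact congrArg Subtype.val hk
      · obtain ⟨m, hm⟩ := exists_pow_eq_self_of_coprime (x := x) (n := q)
          ((((Nat.coprime_primes hq hp).2 h).pow_right k).coprime_dvd_right
            (orderOf_dvd_of_pow_eq_one hk))
        exact ⟨x ^ m, by rw [← pow_mul, mul_comm, pow_mul, hm]⟩
    obtain ⟨y, rfl⟩ := this
    obtain ⟨z, rfl⟩ := ih (by rintro rfl; simp at hn) y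
    exact ⟨z, by rw [mul_comm, pow_mul]⟩

theorem subC {p : ℕ} (hp : p.Prime) (H : Subgroup (Cp p)) : Finite H ∨ H = ⊤ := by
  by_cases h : ∃ n, ∀ x ∈ H, x ^ p ^ n = 1
  · obtain ⟨n, hn⟩ := h
    haveI : NeZero (p ^ n) := ⟨pow_ne_zero _ hp.ne_zero⟩
    exact Or.inl (Finite.of_injective (fun x : H => (⟨x.1.1, congrArg Subtype.val (hn x x.2)⟩ :
      rootsOfUnity (p ^ n) ℂ)) fun x y e => Subtype.ext (Subtype.ext (Subtype.mk.inj e)))
  · push Not at h
    refine Or.inr (eq_top_iff.2 fun y _ => ?_)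
    obtain ⟨n, hn⟩ := powC y
    obtain ⟨x, hx, h1⟩ := h n
    obtain ⟨k, hk⟩ := powC x
    obtain ⟨j, -, hj⟩ := (Nat.dvd_prime_pow hp).1 (orderOf_dvd_of_pow_eq_one hk)
    have h2 : n ≤ j := by
      by_contra hc
      exact h1 (orderOf_dvd_iff_pow_eq_one.1 (hj ▸ pow_dvd_pow p (by omega)))
    haveI : NeZero (p ^ j) := ⟨pow_ne_zero _ hp.ne_zero⟩
    have h3 : IsPrimitiveRoot (x : ℂˣ) (p ^ j) := by
      rw [← hj, ← Subgroup.orderOf_coe]
      exact IsPrimitiveRoot.orderOf _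
    have h4 : (y : ℂˣ) ∈ zpowers (x : ℂˣ) := by
      rw [h3.zpowers_eq]
      exact rootsOfUnity_le_of_dvd (pow_dvd_pow p h2) (congrArg Subtype.val hn)
    obtain ⟨m, hm⟩ := h4
    have : y = x ^ m := Subtype.ext hm.symm
    rw [this]
    exact zpow_mem hx m

theorem baerC {p : ℕ} (hp : p.Prime) (Λ : Type) : Module.Baer ℤ (Λ →₀ Additive (Cp p)) := by
  classical
  have h : ∀ n : ℤ, n ≠ 0 → ∀ a : Additive (Cp p), ∃ b, n • b = a := fun n hn a => by
    obtain ⟨y, hy⟩ := divC hp n.natAbs (Int.natAbs_ne_zero.2 hn) a.toMul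
    have : n.natAbs • Additive.ofMul y = a := congrArg Additive.ofMul hy
    rcases Int.natAbs_eq n with e | e
    · exact ⟨_, by rw [e, natCast_zsmul, this]⟩
    · exact ⟨-Additive.ofMul y, by rw [e, neg_smul, smul_neg, neg_neg, natCast_zsmul, this]⟩
  choose! d hd using h
  letI : DivisibleBy (Λ →₀ Additive (Cp p)) ℤ := divisibleByOfSMulRightSurj _ _ (fun {n} hn f => by
    refine ⟨f.mapRange (fun a => if a = 0 then 0 else d n a) (by simp), ?_⟩
    ext x
    simp only [Finsupp.coe_smul, Pi.smul_apply, Finsupp.mapRange_apply]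
    split_ifs with h
    · simp [h]
    · rw [hd n hn])
  exact Module.Baer.of_divisible _

theorem extC {p : ℕ} (hp : p.Prime) {A T : Type} [CommGroup A] [CommGroup T] (B : Subgroup A)
    (ψ : B →* T) : ∃ (Λ : Type) (χ : Λ → A →* Cp p), (∀ a, {l | χ l a ≠ 1}.Finite) ∧
      (∀ b : B, ψ b = 1 → ∀ l, χ l b = 1) ∧ ∀ b : B, ψ b ^ p = 1 → (∀ l, χ l b = 1) → ψ b = 1 := by
  haveI := Fact.mk hp
  haveI : NeZero p := ⟨hp.ne_zero⟩
  obtain ⟨ζ, hζ⟩ : ∃ ζ : ℂˣ, IsPrimitiveRoot ζ p := by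
    have h := Complex.isPrimitiveRoot_exp p hp.ne_zero
    obtain ⟨ζ, e⟩ := h.isUnit hp.ne_zero
    exact ⟨ζ, IsPrimitiveRoot.coe_units_iff.1 (e ▸ h)⟩
  have hle : zpowers ζ ≤ Cp p := zpowers_le_of_mem (memC.2 ⟨1, by simpa using hζ.pow_eq_one⟩)
  let e : ZMod p →+ Additive (Cp p) :=
    (MonoidHom.toAdditive (inclusion hle)).comp hζ.zmodEquivZPowers.toAddMonoidHom
  have he : Function.Injective e :=
    (inclusion_injective hle).comp hζ.zmodEquivZPowers.injective
  let W : AddSubgroup (Additive T) := (nsmulAddMonoidHom p).ker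
  letI : Module (ZMod p) W := AddCommGroup.zmodModule fun x => Subtype.ext x.2
  let φ : W →+ (_ →₀ Additive (Cp p)) := (Finsupp.mapRange.addMonoidHom e).comp
      (Module.Basis.ofVectorSpace (ZMod p) W).repr.toLinearMap.toAddMonoidHom
  have hφ : Function.Injective φ := (Finsupp.mapRange_injective _ (map_zero _) he).comp
      (Module.Basis.ofVectorSpace (ZMod p) W).repr.injective
  obtain ⟨j, hj⟩ := (baerC hp _).extension_property_addMonoidHom W.subtype Subtype.val_injective φ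
  obtain ⟨β, hβ⟩ := (baerC hp _).extension_property_addMonoidHom
    (MonoidHom.toAdditive B.subtype) Subtype.val_injective (j.comp (MonoidHom.toAdditive ψ))
  have hb : ∀ b : B, β (Additive.ofMul (b : A)) = j (Additive.ofMul (ψ b)) := fun b =>
    DFunLike.congr_fun hβ (Additive.ofMul b)
  refine ⟨_, fun l => MonoidHom.toAdditive.symm ((Finsupp.applyAddHom l).comp β),
    fun a => (β (Additive.ofMul a)).support.finite_toSet.subset fun l hl =>
      Finsupp.mem_support_iff.2 hl, fun b h l => ?_, fun b h1 h2 => ?_⟩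
  · change β (Additive.ofMul (b : A)) l = 0
    rw [hb, h, ofMul_one, map_zero]
    rfl
  · have h3 : j (Additive.ofMul (ψ b)) = 0 := by
      rw [← hb]
      exact Finsupp.ext h2
    have h4 : Additive.ofMul (ψ b) ∈ W := congrArg Additive.ofMul h1
    have h5 : φ ⟨_, h4⟩ = φ 0 := by
      rw [map_zero, ← h3, ← hj]
      rfl
    exact congrArg Subtype.val (hφ h5)

theorem extH {p : ℕ} (hp : p.Prime) {H T : Type} [Group H] [CommGroup T] (W R : Subgroup H)
    [W.Normal] (hW : ∀ a b : H, ⁅a, b⁆ ∈ W) (ψ : R →* T) (hψ : ∀ r : R, r.1 ∈ W → ψ r = 1) :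
    ∃ (Λ : Type) (χ : Λ → H →* Cp p), (∀ a, {l | χ l a ≠ 1}.Finite) ∧ (∀ l, ∀ w ∈ W, χ l w = 1) ∧
      (∀ r : R, ψ r = 1 → ∀ l, χ l r = 1) ∧ ∀ r : R, ψ r ^ p = 1 → (∀ l, χ l r = 1) → ψ r = 1 := by
  letI : CommGroup (H ⧸ W) := { (inferInstance : Group (H ⧸ W)) with
    mul_comm := fun a b => by
      induction a using QuotientGroup.induction_on with | H a =>
      induction b using QuotientGroup.induction_on with | H b =>
      exact (cq.1 (hW a b)).eq }
  let s := (QuotientGroup.mk' W).subgroupMap R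
  have hs : Function.Surjective s := MonoidHom.subgroupMap_surjective _ _
  let ψ' := s.liftOfSurjective hs ⟨ψ, fun r hr =>
    hψ r ((QuotientGroup.eq_one_iff _).1 (congrArg Subtype.val hr))⟩
  have h0 : ∀ r, ψ' (s r) = ψ r := fun r => MonoidHom.liftOfRightInverse_comp_apply _ _ _ _ _
  obtain ⟨Λ, χ, h1, h2, h3⟩ := extC hp _ ψ'
  refine ⟨Λ, fun l => (χ l).comp (QuotientGroup.mk' W), fun a => h1 _, fun l w hw => ?_,
    fun r h l => h2 (s r) ((h0 r).trans h) l, fun r h h' => ?_⟩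
  · rw [MonoidHom.comp_apply, QuotientGroup.mk'_apply, (QuotientGroup.eq_one_iff _).2 hw, map_one]
  · rw [← h0] at h ⊢
    exact h3 _ h h'

variable {G : Type} [Group G]

theorem fic {F : Type} [Group F] (f : F →* G) (H : Subgroup G) [H.FiniteIndex] :
    (H.comap f).FiniteIndex := ⟨by
  rw [index_comap]
  exact (instFiniteIndex_subgroupOf H f.range).index_ne_zero⟩

theorem mapc {F : Type} [Group F] (f : F →* G) {w : F} (hw : w ∈ commutator F) :
    f w ∈ commutator G := by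
  have := mem_map_of_mem f hw
  rw [_root_.commutator_def, map_commutator] at this
  exact commutator_mono le_top le_top this

theorem tors (hFC : FC G) {X : Type} (π : FreeGroup X →* G) {w : FreeGroup X}
    (hw : w ∈ commutator _) : IsOfFinOrder (π w) := by
  obtain ⟨Y, hY, hd⟩ := fdep w
  let f := ph (fun x => π (.of x)) Y
  have a1 : π w = f w := hd G _ _ fun y hy => by simp [f, ph_in hy]
  have a2 : f.range ≤ closure ((fun x => π (.of x)) '' Y) := by
    rintro _ ⟨u, rfl⟩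
    exact ph_mem (fun x hx => Subgroup.subset_closure (Set.mem_image_of_mem _ hx)) _
  haveI := schur hFC (hY.image _) a2
  rw [a1]
  exact (f.range.subtype.comp (commutator _).subtype).isOfFinOrder
    (isOfFinOrder_of_finite ⟨_, mapc f.rangeRestrict hw⟩)

theorem step2 (hFC : FC G) {κ F : Type} [Group F] (ρ : κ → F →* G) (π : F →* G)
    (πs : Function.Surjective π) (hT : ∀ w ∈ commutator F, IsOfFinOrder (π w))
    (h2 : ∀ w, {k | ρ k w ≠ 1}.Finite) (h3 : ∀ w ∈ g3 F, (∀ k, ρ k w = 1) → π w = 1) :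
    ∃ (Λ : Type) (K : Λ → Subgroup F) (_ : ∀ l, (K l).Normal),
      (∀ l, FC (F ⧸ K l) ∧ (Finite (commutator (F ⧸ K l)) ∨ ∃ p : ℕ, p.Prime ∧
        Nonempty (commutator (F ⧸ K l) ≃* Cp p))) ∧
      (∀ w : F, {l | (w : F ⧸ K l) ∉ center _}.Finite) ∧
      ∀ w ∈ commutator F, (∀ k, ρ k w = 1) → (∀ l, w ∈ K l) → π w = 1 := by
  classical
  have c3 : ∀ u ∈ commutator F, ∀ v, ⁅u, v⁆ ∈ g3 F := fun u hu v =>
    commutator_mem_commutator hu (mem_top _)
  have c3' : ∀ u ∈ commutator F, ∀ v, ⁅v, u⁆ ∈ g3 F := fun u hu v => by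
    rw [← commutatorElement_inv]; exact inv_mem (c3 u hu v)
  let R : Subgroup (commutator F) := (⨅ k, (ρ k).ker).subgroupOf _
  have hR : ∀ r : commutator F, r ∈ R ↔ ∀ k, ρ k r = 1 := fun r => mem_iInf
  let ψ : R →* center G := ((π.comp (commutator F).subtype).comp R.subtype).codRestrict _ fun r => by
    refine mem_center_iff.2 fun g => (commutatorElement_eq_one_iff_mul_comm.1 ?_).symm
    obtain ⟨g, rfl⟩ := πs g
    have := h3 _ (c3 _ r.1.2 g) fun k => by
      rw [map_commutatorElement, (hR _).1 r.2 k, commutatorElement_one_left]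
    rwa [map_commutatorElement] at this
  choose Λ χ e1 e2 e3 e4 using fun p : Nat.Primes => extH p.2 ((g3 F).subgroupOf _) R
    (fun a b => c3 _ a.2 b) ψ fun r hr => Subtype.ext (h3 _ hr ((hR _).1 r.2))
  let K : (Σ p, Λ p) → Subgroup F := fun l => (χ l.1 l.2).ker.map (commutator F).subtype
  have hK : ∀ l (w : commutator F), w.1 ∈ K l ↔ χ l.1 l.2 w = 1 := fun l w =>
    mem_map_iff_mem Subtype.val_injective
  have hc : ∀ p l (w : commutator F) (u : F),
      χ p l ⟨u * w * u⁻¹, Normal.conj_mem inferInstance _ w.2 u⟩ = χ p l w := fun p l w u => by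
    have : (⟨u * w * u⁻¹, Normal.conj_mem inferInstance _ w.2 u⟩ : commutator F) =
        ⟨_, hcm u w⟩ * w := Subtype.ext (by simp [commutatorElement_def])
    rw [this, map_mul, e2 p l _ (c3' _ w.2 u), one_mul]
  haveI Kn : ∀ l, (K l).Normal := fun l => ⟨by
    rintro _ ⟨w, hw, rfl⟩ u
    exact (hK l ⟨_, Normal.conj_mem inferInstance _ w.2 u⟩).2 ((hc _ _ w u).trans hw)⟩
  have hU : ∀ w : F, ∃ U : Subgroup F, U.Normal ∧ U.FiniteIndex ∧
      ∀ u ∈ U, ∀ p l, χ p l ⟨_, hcm u w⟩ = 1 := by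
    intro w
    haveI := fun g : G => Cn_fi hFC (Set.finite_singleton g)
    haveI := (h2 w).to_subtype
    haveI := fic π (Cn {π w})
    haveI : (⨅ k : {k | ρ k w ≠ 1}, (Cn {ρ k w}).comap (ρ k)).FiniteIndex :=
      finiteIndex_iInf fun k => fic _ _
    haveI : (⨅ k : {k | ρ k w ≠ 1}, (Cn {ρ k w}).comap (ρ k)).Normal :=
      normal_iInf_normal fun k => inferInstance
    refine ⟨(Cn {π w}).comap π ⊓ ⨅ k : {k | ρ k w ≠ 1}, (Cn {ρ k w}).comap (ρ k), inferInstance,
      inferInstance, fun u hu p => e3 p ⟨⟨_, hcm u w⟩, (hR _).2 fun k => ?_⟩ (Subtype.ext ?_)⟩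
    · change ρ k ⁅u, w⁆ = 1
      rw [map_commutatorElement]
      by_cases h : ρ k w = 1
      · rw [h, commutatorElement_one_right]
      · exact (Cn_comm (mem_iInf.1 hu.2 ⟨k, h⟩) rfl).commutator_eq
    · change π ⁅u, w⁆ = 1
      rw [map_commutatorElement]
      exact (Cn_comm hu.1 rfl).commutator_eq
  have hm : ∀ p l (w u v : F), χ p l ⟨_, hcm (u * v) w⟩ =
      χ p l ⟨_, hcm u w⟩ * χ p l ⟨_, hcm v w⟩ := fun p l w u v => by
    rw [mul_comm, ← hc p l ⟨_, hcm v w⟩ u, ← map_mul]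
    congr 1
    exact Subtype.ext (by simp only [commutatorElement_def, coe_mul]; group)
  refine ⟨_, K, Kn, fun l => ⟨fun w => ?_, ?_⟩, fun w => ?_, fun w hw h h' => ?_⟩
  · induction w using QuotientGroup.induction_on with | H w =>
    obtain ⟨U, -, _, hu⟩ := hU w
    obtain ⟨X, -, hX⟩ := reps ⊤ U
    refine (X.finite_toSet.image fun x : F => ((x * w * x⁻¹ : F) : F ⧸ K l)).subset fun y hy => ?_
    obtain ⟨c, rfl⟩ := isConj_iff.1 hy
    induction c using QuotientGroup.induction_on with | H c =>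
    obtain ⟨x, hx, h⟩ := hX c (mem_top _)
    refine ⟨x, hx, ?_⟩
    have := (cq.1 ((hK l ⟨_, hcm _ _⟩).2 (hu _ h _ _))).eq
    simp only [QuotientGroup.mk_mul, QuotientGroup.mk_inv] at this ⊢
    calc _ = (x : F ⧸ K l) * (w * ((x : F ⧸ K l)⁻¹ * c)) * (c : F ⧸ K l)⁻¹ := by group
      _ = _ := by rw [← this]; group
  · let s : commutator F →* commutator (F ⧸ K l) :=
      ((QuotientGroup.mk' (K l)).comp (commutator F).subtype).codRestrict _ fun x =>
        mapc (QuotientGroup.mk' (K l)) x.2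
    have hs : Function.Surjective s := by
      rintro ⟨t, ht⟩
      rw [_root_.commutator_def, ← map_top_of_surjective _ (QuotientGroup.mk'_surjective (K l)),
        ← map_commutator] at ht
      obtain ⟨y, hy, e⟩ := ht
      exact ⟨⟨y, hy⟩, Subtype.ext e⟩
    let θ := s.liftOfSurjective hs ⟨χ l.1 l.2, fun r hr =>
      (hK l r).1 ((QuotientGroup.eq_one_iff _).1 (congrArg Subtype.val hr))⟩
    have h0 : ∀ r, θ (s r) = χ l.1 l.2 r := fun r =>
      MonoidHom.liftOfRightInverse_comp_apply _ _ _ _ _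
    have hi : Function.Injective θ := (injective_iff_map_eq_one _).2 fun y hy => by
      obtain ⟨x, rfl⟩ := hs y
      exact Subtype.ext ((QuotientGroup.eq_one_iff _).2 ((hK l x).2 ((h0 x).symm.trans hy)))
    rcases subC l.1.2 θ.range with h | h
    · exact Or.inl (Finite.of_equiv _ (MonoidHom.ofInjective hi).symm.toEquiv)
    · exact Or.inr ⟨l.1, l.1.2, ⟨MulEquiv.ofBijective θ ⟨hi, MonoidHom.range_eq_top.1 h⟩⟩⟩
  · obtain ⟨U, _, _, hu⟩ := hU w
    obtain ⟨X, -, hX⟩ := reps ⊤ U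
    have hP : {p : Nat.Primes | (p : ℕ) ∣ U.index}.Finite :=
      ((U.index.divisors.finite_toSet).preimage Subtype.val_injective.injOn).subset fun p hp =>
        Nat.mem_divisors.2 ⟨hp, FiniteIndex.index_ne_zero⟩
    refine (hP.biUnion fun p _ => (X.finite_toSet.biUnion fun x _ =>
      e1 p ⟨_, hcm x w⟩).image (Sigma.mk p)).subset ?_
    rintro ⟨p, l⟩ hl
    by_contra hn
    refine hl (mem_center_iff.2 fun y => ?_)
    induction y using QuotientGroup.induction_on with | H y =>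
    refine (cq.1 ((hK _ ⟨_, hcm _ _⟩).2 ?_)).eq
    change χ p l ⟨_, hcm y w⟩ = 1
    by_cases hp : (p : ℕ) ∣ U.index
    · obtain ⟨x, hx, h⟩ := hX y (mem_top _)
      have := hm p l w x (x⁻¹ * y)
      simp only [mul_inv_cancel_left] at this
      rw [this, hu _ h, mul_one]
      by_contra hc
      exact hn (Set.mem_biUnion hp ⟨l, Set.mem_biUnion hx hc, rfl⟩)
    · refine copC p.2 hp ?_
      rw [← hu _ (U.pow_index_mem y) p l]
      exact ((MonoidHom.mk' (fun u => χ p l ⟨_, hcm u w⟩) (hm p l w)).map_pow y _).symm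
  · let r : R := ⟨⟨w, hw⟩, (hR _).2 h⟩
    have hf : IsOfFinOrder (ψ r) := by
      rw [← (center G).subtype_injective.isOfFinOrder_iff]
      exact hT w hw
    have : ψ r = 1 := by
      by_contra hn
      obtain ⟨p, hp, m, hm⟩ := Nat.exists_prime_and_dvd (mt orderOf_eq_one_iff.1 hn)
      have h0 := hf.orderOf_pos
      have := e4 ⟨p, hp⟩ (r ^ m) (by
        rw [map_pow, ← pow_mul, mul_comm, ← hm, pow_orderOf_eq_one]) fun l => by
        rw [coe_pow, map_pow, (hK ⟨_, l⟩ _).1 (h' _), one_pow]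
      rw [map_pow] at this
      have h4 := Nat.le_of_dvd (Nat.pos_of_mul_pos_left (hm ▸ h0)) (orderOf_dvd_of_pow_eq_one this)
      have := hp.two_le
      have : 0 < m := Nat.pos_of_mul_pos_left (hm ▸ h0)
      nlinarith
    exact congrArg Subtype.val this

end Pool.Agent.H.MP_fb3574_al
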